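import Pool.Agent.Q60.D3H.StmD
import Pool.Agent.Q182.D3H.Prt
import Pool.Agent.H977R3.CM.Aut

/-!
# Project D3H, job D3 NPT: the orbit of a nondegenerate CM type
-/

set_option linter.unusedSectionVars false
set_option linter.unusedVariables false

namespace Pool.Agent.Q144.D3H

open NumberField Module Pool.Agent.H204R3.CM
open Pool.Agent.W547.KB (CMPair cc)
open Pool.Agent.W547.LD (hs isHalf_hs tr_hs stable_hs compl_hs trans_hs)
open Pool.Agent.W547.LD.Comb (tr eps eps_compl eps_cases)
open Pool.Agent.W547.LN (exists_smul card_hom)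
open Pool.Agent.Q182.D3H.Prt (eq_or_conj tr_cc compl_ne tr_of_fix)
open Pool.Agent.Q60.D3H

noncomputable section

/-- Odd relations between vectors which come in opposite pairs and span a space of the maximal
possible dimension are trivial. -/
theorem odd_rel {ι G : Type} [Fintype ι] [Finite G] (c : ι → ι) (hc : ∀ i, c (c i) = i)
    (v : ι → G → ℚ)
    (hv : ∀ i, v (c i) = -v i) (g : G) (hg : ∀ i, v i g ≠ 0)
    (hrank : Fintype.card ι ≤ 2 * finrank ℚ (Submodule.span ℚ (Set.range v)))
    (b : ι → ℚ) (hb : ∀ i, b (c i) = -b i) (h0 : ∑ i, b i • v i = 0) : b = 0 := by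
  classical
  -- odd functions
  let Alt : Submodule ℚ (ι → ℚ) :=
    { carrier := {b | ∀ i, b (c i) = -b i}
      add_mem' := fun {x y} hx hy i => by
        have h1 : x (c i) = -x i := hx i
        have h2 : y (c i) = -y i := hy i
        rw [Pi.add_apply, Pi.add_apply, h1, h2]; ring
      zero_mem' := fun i => by simp
      smul_mem' := fun q x hx i => by
        have h1 : x (c i) = -x i := hx i
        rw [Pi.smul_apply, Pi.smul_apply, h1, smul_neg] }
  let T : (ι → ℚ) →ₗ[ℚ] (G → ℚ) := Fintype.linearCombination ℚ v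
  have hT : ∀ b, T b = ∑ i, b i • v i := fun b => Fintype.linearCombination_apply ℚ v b
  -- multiplication by the values at `g`
  let m : (ι → ℚ) →ₗ[ℚ] (ι → ℚ) := LinearMap.pi fun i => (v i g) • LinearMap.proj i
  have hm : ∀ b i, m b i = v i g * b i := fun b i => rfl
  have hminj : Function.Injective m := by
    intro x y hxy
    funext i
    have := congrFun hxy i
    rw [hm, hm] at this
    exact mul_left_cancel₀ (hg i) this
  have hdisj : Disjoint Alt (Alt.map m) := by
    rw [Submodule.disjoint_def]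
    rintro x hx ⟨y, hy, rfl⟩
    funext i
    have h1 := hx i
    have h3 : y (c i) = -y i := hy i
    rw [hm, hm, hv i, h3, Pi.neg_apply] at h1
    have h2 : v i g * y i = 0 := by linarith
    rw [hm, h2]
    rfl
  have h1 := Submodule.finrank_add_finrank_le_of_disjoint hdisj
  have h2 : finrank ℚ (Alt.map m) = finrank ℚ Alt :=
    (LinearEquiv.finrank_eq (Submodule.equivMapOfInjective m hminj Alt)).symm
  rw [h2, Module.finrank_fintype_fun_eq_card] at h1
  -- the range is the image of the odd functions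
  have hre : ∀ x : ι → ℚ, ∑ i, x (c i) • v i = -∑ i, x i • v i := by
    intro x
    have e : ∑ i, x (c (c i)) • v (c i) = ∑ i, x (c i) • v i :=
      Equiv.sum_comp (⟨c, c, hc, hc⟩ : Equiv ι ι) (fun i => x (c i) • v i)
    rw [← e, ← Finset.sum_neg_distrib]
    refine Finset.sum_congr rfl fun i _ => ?_
    rw [hc, hv, smul_neg]
  have h3 : Submodule.span ℚ (Set.range v) ≤ Alt.map T := by
    rw [← Fintype.range_linearCombination]
    rintro _ ⟨x, rfl⟩
    refine ⟨fun i => (x i - x (c i)) / 2, ?_, ?_⟩
    · intro i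
      show (x (c i) - x (c (c i))) / 2 = -((x i - x (c i)) / 2)
      rw [hc]
      ring
    · rw [hT]
      change _ = T x
      rw [hT]
      have e1 : ∀ i, ((x i - x (c i)) / 2) • v i = (1 / 2 : ℚ) • (x i • v i) -
          (1 / 2 : ℚ) • (x (c i) • v i) := by
        intro i
        rw [smul_smul, smul_smul, ← sub_smul]
        congr 1
        ring
      rw [Finset.sum_congr rfl (fun i _ => e1 i), Finset.sum_sub_distrib, ← Finset.smul_sum,
        ← Finset.smul_sum, hre, smul_neg, sub_neg_eq_add, ← add_smul]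
      norm_num
  have h4 := Submodule.finrank_mono h3
  -- `T` is injective on the odd functions
  have h5 := LinearMap.finrank_range_add_finrank_ker (T.domRestrict Alt)
  rw [LinearMap.range_domRestrict] at h5
  have h6 : finrank ℚ (LinearMap.ker (T.domRestrict Alt)) = 0 := by omega
  have h7 : LinearMap.ker (T.domRestrict Alt) = ⊥ := Submodule.finrank_eq_zero.1 h6
  have h8 : (⟨b, hb⟩ : Alt) ∈ LinearMap.ker (T.domRestrict Alt) := by
    rw [LinearMap.mem_ker]
    change T b = 0
    rw [hT, h0]
  rw [h7, Submodule.mem_bot] at h8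
  exact congrArg Subtype.val h8

variable {L : Type} [Field L] [NumberField L] [IsCMField L] [IsGalois ℚ L]

/-- The dichotomy for the subgroups containing the stabilizer of the pair. -/
theorem key (B : CMPair)
    (hB : ∀ F : Subfield B.E, F ≤ maximalRealSubfield B.E → F = ⊥ ∨ F = maximalRealSubfield B.E)
    (j : L →+* ℂ) (φ : B.E →+* L) (H : Subgroup (L ≃ₐ[ℚ] L))
    (hH : ∀ τ, tr τ (hs B j φ) = hs B j φ ∨ tr τ (hs B j φ) = (hs B j φ)ᶜ → τ ∈ H) :
    (∀ τ ∈ H, ∀ a ∈ maximalRealSubfield B.E, τ (φ a) = φ a) ∨ H = ⊤ := by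
  let F := maximalRealSubfield B.E
  -- the image of the real field
  let M : IntermediateField ℚ L := IntermediateField.fixedField H
  let ι : B.E →ₐ[ℚ] L := RingHom.equivRatAlgHom B.E L φ
  let F1 : IntermediateField ℚ B.E := M.comap ι
  let FF : IntermediateField ℚ B.E := F.toIntermediateField (fun x => by
    exact SubfieldClass.ratCast_mem F x)
  let W : IntermediateField ℚ L := FF.map ι
  have hM : M ≤ W := by
    rw [← IsGalois.fixedField_fixingSubgroup W]
    refine (IntermediateField.fixedField_antitone : _) ?_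
    intro τ hτ
    refine hH τ (tr_of_fix B j φ τ ?_).2
    intro a ha
    exact (IntermediateField.mem_fixingSubgroup_iff W τ).1 hτ _ ⟨a, ha, rfl⟩
  have hle : F1.toSubfield ≤ F := by
    intro a ha
    have h1 : ι a ∈ M := ha
    obtain ⟨b, hb, hb2⟩ := hM h1
    have h2 : b = a := ι.toRingHom.injective hb2
    rw [← h2]
    exact hb
  rcases hB F1.toSubfield hle with h | h
  · right
    have h1 : M = ⊥ := by
      rw [eq_bot_iff]
      intro x hx
      obtain ⟨b, hb, rfl⟩ := hM hx
      have h2 : b ∈ F1.toSubfield := hx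
      rw [h] at h2
      have h3 : b ∈ (⊥ : IntermediateField ℚ B.E) := by
        have h4 : (⊥ : Subfield B.E) ≤ (⊥ : IntermediateField ℚ B.E).toSubfield := bot_le
        exact h4 h2
      obtain ⟨q, rfl⟩ := IntermediateField.mem_bot.1 h3
      rw [IntermediateField.mem_bot]
      exact ⟨q, (ι.commutes q).symm⟩
    have h2 : IntermediateField.fixingSubgroup M = H := IntermediateField.fixingSubgroup_fixedField H
    rw [h1] at h2
    rw [← h2]
    exact IntermediateField.fixingSubgroup_bot
  · left
    intro τ hτ a ha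
    have h1 : a ∈ F1.toSubfield := by
      rw [h]
      exact ha
    have h2 : ι a ∈ M := h1
    exact (IntermediateField.mem_fixedField_iff H (ι a)).1 h2 τ hτ

open Classical in
/-- The rank of a CM type, computed in the Galois closure. -/
theorem rank_hs (B : CMPair) (j : L →+* ℂ) (hj : ∀ ψ : B.E →+* ℂ, ∃ φ : B.E →+* L, j.comp φ = ψ)
    (hN : NonDeg B) :
    2 * finrank ℚ (Submodule.span ℚ (Set.range fun φ : B.E →+* L => eps (hs B j φ))) =
      Nat.card (B.E →+* L) := by
  have : Finite (B.E →+* L) := by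
    apply Nat.finite_of_card_ne_zero
    rw [card_hom B j hj]
    exact Module.finrank_pos.ne'
  have := Fintype.ofFinite (B.E →+* L)
  rw [card_hom B j hj, ← hN]
  congr 1
  have hbij : Function.Bijective (fun φ : B.E →+* L => j.comp φ) := by
    constructor
    · intro φ φ' h
      ext a
      exact j.injective (RingHom.congr_fun h a)
    · exact hj
  let e : ((B.E →+* ℂ) → ℚ) ≃ₗ[ℚ] ((B.E →+* L) → ℚ) :=
    LinearEquiv.funCongrLeft ℚ ℚ (Equiv.ofBijective _ hbij)
  have he : ∀ f φ, e f φ = f (j.comp φ) := fun f φ => rfl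
  let M : Matrix (L ≃ₐ[ℚ] L) (B.E →+* L) ℚ := Matrix.of fun g φ => eps (hs B j φ) g
  have h1 := M.rank_eq_finrank_span_row
  have h2 := M.rank_eq_finrank_span_cols
  have h3 : Set.range M.col = Set.range fun φ : B.E →+* L => eps (hs B j φ) := rfl
  rw [← h3, ← h2, h1, ← LinearEquiv.finrank_map_eq e, Submodule.map_span]
  suffices hset : Set.range M.row = (e : ((B.E →+* ℂ) → ℚ) →ₗ[ℚ] ((B.E →+* L) → ℚ)) ''
      Set.range fun (σ : ℂ ≃+* ℂ) (φ : B.E →+* ℂ) =>
        if (σ : ℂ →+* ℂ).comp φ ∈ B.Φ then (1 : ℚ) else -1 by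
    rw [hset]
  ext f
  constructor
  · rintro ⟨g, rfl⟩
    obtain ⟨σ, hσ⟩ := Pool.Agent.H977R3.CM.exists_aut j (g : L ≃+* L)
    refine ⟨_, ⟨σ, rfl⟩, ?_⟩
    funext φ
    change (if (σ : ℂ →+* ℂ).comp (j.comp φ) ∈ B.Φ then (1 : ℚ) else -1) = eps (hs B j φ) g
    have e1 : (σ : ℂ →+* ℂ).comp (j.comp φ) = j.comp (g • φ) := by
      ext x
      exact hσ (φ x)
    rw [e1]
    rfl
  · rintro ⟨_, ⟨σ, rfl⟩, rfl⟩
    obtain ⟨g, hg⟩ := Pool.Agent.H977R3.CM.exists_gal j σ
    refine ⟨g, ?_⟩
    funext φ
    change eps (hs B j φ) g = (if (σ : ℂ →+* ℂ).comp (j.comp φ) ∈ B.Φ then (1 : ℚ) else -1)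
    have e1 : (σ : ℂ →+* ℂ).comp (j.comp φ) = j.comp (g • φ) := by
      ext x
      exact hg (φ x)
    rw [e1]
    rfl

/-- JOB D3 NPT. -/
theorem npt : S_npt := by
  intro B hB L _ _ _ _ j hj
  classical
  have : Finite (B.E →+* L) := by
    apply Nat.finite_of_card_ne_zero
    rw [card_hom B j hj]
    exact Module.finrank_pos.ne'
  have := Fintype.ofFinite (B.E →+* L)
  have hcc : ∀ φ : B.E →+* L, cc L • cc L • φ = φ := by
    intro φ
    rw [← mul_smul, Pool.Agent.W547.KB.cc_cc, one_smul]
  -- odd relations are trivial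
  have hodd : ∀ b : (B.E →+* L) → ℚ, (∀ φ, b (cc L • φ) = -b φ) →
      ∑ φ, b φ • eps (hs B j φ) = 0 → b = 0 := by
    intro b hb h0
    refine odd_rel (fun φ : B.E →+* L => cc L • φ) hcc (fun φ => eps (hs B j φ)) ?_ 1 ?_ ?_ b hb h0
    · intro φ
      funext σ
      show eps (hs B j (cc L • φ)) σ = -eps (hs B j φ) σ
      rw [tr_cc, eps_compl]
    · intro φ
      rcases eps_cases (hs B j φ) 1 with h | h <;> rw [h] <;> norm_num
    · have := rank_hs B j hj hB.1
      rw [← Nat.card_eq_fintype_card]
      exact this.ge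
  have hinj : Function.Injective (hs B j) := by
    intro φ ψ h
    by_contra hne
    have hne2 : cc L • φ ≠ ψ := by
      intro h2
      rw [← h2, tr_cc] at h
      exact compl_ne _ h
    have hc1 : ∀ χ : B.E →+* L, cc L • χ ≠ χ := by
      intro χ h2
      have h3 := tr_cc B j χ
      rw [h2] at h3
      exact compl_ne _ h3
    have hsw : ∀ χ χ' : B.E →+* L, cc L • χ = χ' ↔ χ = cc L • χ' := by
      intro χ χ'
      constructor
      · intro h2
        rw [← h2, hcc]
      · intro h2
        rw [h2, hcc]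
    let b : (B.E →+* L) → ℚ := fun χ =>
      (if χ = φ then 1 else 0) - (if χ = cc L • φ then 1 else 0) -
        (if χ = ψ then 1 else 0) + (if χ = cc L • ψ then 1 else 0)
    have hb : ∀ χ, b (cc L • χ) = -b χ := by
      intro χ
      show (if cc L • χ = φ then (1 : ℚ) else 0) - (if cc L • χ = cc L • φ then 1 else 0) -
        (if cc L • χ = ψ then 1 else 0) + (if cc L • χ = cc L • ψ then 1 else 0) =
        -((if χ = φ then 1 else 0) - (if χ = cc L • φ then 1 else 0) -
        (if χ = ψ then 1 else 0) + (if χ = cc L • ψ then 1 else 0))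
      simp only [hsw, hcc]
      ring
    have h0 : ∑ χ, b χ • eps (hs B j χ) = 0 := by
      have e1 : ∀ χ, b χ • eps (hs B j χ) =
          (if χ = φ then eps (hs B j χ) else 0) - (if χ = cc L • φ then eps (hs B j χ) else 0) -
          (if χ = ψ then eps (hs B j χ) else 0) + (if χ = cc L • ψ then eps (hs B j χ) else 0) := by
        intro χ
        show ((if χ = φ then (1 : ℚ) else 0) - (if χ = cc L • φ then 1 else 0) -
          (if χ = ψ then 1 else 0) + (if χ = cc L • ψ then 1 else 0)) • eps (hs B j χ) = _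
        rw [add_smul, sub_smul, sub_smul, ite_smul, ite_smul, ite_smul, ite_smul, one_smul,
          zero_smul]
      rw [Finset.sum_congr rfl (fun χ _ => e1 χ), Finset.sum_add_distrib, Finset.sum_sub_distrib,
        Finset.sum_sub_distrib, Finset.sum_ite_eq' , Finset.sum_ite_eq', Finset.sum_ite_eq',
        Finset.sum_ite_eq']
      simp only [Finset.mem_univ, if_true]
      rw [tr_cc, tr_cc, h]
      simp
    have h1 := congrFun (hodd b hb h0) φ
    have h2 : b φ = 1 := by
      show (if φ = φ then (1 : ℚ) else 0) - (if φ = cc L • φ then 1 else 0) -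
        (if φ = ψ then 1 else 0) + (if φ = cc L • ψ then 1 else 0) = 1
      rw [if_pos rfl, if_neg (fun h => hc1 φ h.symm), if_neg hne,
        if_neg (fun h => hne2 ((hsw φ ψ).2 h))]
      norm_num
    rw [h2] at h1
    exact one_ne_zero h1
  refine ⟨?_, hinj, ?_⟩
  · rintro _ ⟨φ, rfl⟩ H hH
    rcases key B hB.2 j φ H hH with h1 | h1
    · left
      intro τ hτ
      exact (tr_of_fix B j φ τ (h1 τ hτ)).2
    · exact Or.inr h1
  · intro a hsupp hneg hFF
    have h1 : (fun φ : B.E →+* L => a (hs B j φ)) = 0 := by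
      apply hodd
      · intro φ
        show a (hs B j (cc L • φ)) = -a (hs B j φ)
        rw [tr_cc, hneg]
      · rw [Pool.Agent.W547.LD.Comb.FF_eq] at hFF
        rw [← hFF]
        have e1 : ∑ φ : B.E →+* L, a (hs B j φ) • eps (hs B j φ) =
            ∑ S ∈ Finset.univ.image (hs B j), a S • eps S := by
          rw [Finset.sum_image (fun x _ y _ h => hinj h)]
        rw [e1]
        refine Finset.sum_subset (Finset.subset_univ _) fun S _ hS => ?_
        rw [hsupp S, zero_smul]
        rintro ⟨φ, rfl⟩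
        exact hS (Finset.mem_image_of_mem _ (Finset.mem_univ _))
    funext S
    by_cases hS : S ∈ Set.range (hs B j)
    · obtain ⟨φ, rfl⟩ := hS
      exact congrFun h1 φ
    · exact hsupp S hS

end

end Pool.Agent.Q144.D3H
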