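import Pool.Agent.Q60.D3H.StmD
import Pool.Agent.Q14.D3H.Afine

/-!
# Project D3H, job D2 SFINE

Orbits such that for two different pairs some element fixes all pairs, fixes the elements of the
first pair and exchanges those of the second.
-/

set_option linter.unusedSectionVars false

namespace Pool.Agent.Q144.D3H

open Module Pool.Agent.W547.LD.Comb Pool.Agent.Q60.D3G Pool.Agent.Q60.D3H
open Pool.Agent.Q14.D3H

/-- JOB D2 SFINE. -/
theorem sfine : S_sfine := by
  intro G _ _ c hc Q hQ ht hcp hhalf hcard hex
  classical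
  have hsep : ∀ {S T : Set G}, S ∈ Q → T ∈ Q → T ≠ S → T ≠ Sᶜ →
      ∃ h ∈ CC Q, ¬ (tr h S = S ↔ tr h T = T) := by
    intro S T hS hT h1 h2
    obtain ⟨h, hh, e1, e2⟩ := hex S hS T hT h1 h2
    refine ⟨h, hh, fun h3 => ?_⟩
    have h4 := h3.1 e1
    rw [e2] at h4
    exact ne_compl T h4.symm
  refine ⟨hQ, ht, hcp, hhalf, ?_, ?_⟩
  · -- the sums over normal subgroups
    intro M hMn hMf hMk F hF
    -- a nontrivial element of `M ⊓ CC Q`
    obtain ⟨h1, h1M, h1C, S1, hS1, e1⟩ : ∃ h1 ∈ M, h1 ∈ CC Q ∧ ∃ S1 ∈ Q, tr h1 S1 ≠ S1 := by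
      by_contra hcon
      push Not at hcon
      apply hMk
      intro h hh
      have key : ∀ S ∈ Q, tr h S = S ∨ tr h S = Sᶜ := by
        intro S hS
        by_contra hne
        push Not at hne
        obtain ⟨k, hk, hk2⟩ := hsep hS (hQ h S hS) hne.1 hne.2
        apply hk2
        have hz : k⁻¹ * (h⁻¹ * k * h) ∈ CC Q :=
          (CC Q).mul_mem ((CC Q).inv_mem hk) (conj_mem hQ hk h)
        have hzM : k⁻¹ * (h⁻¹ * k * h) ∈ M := by
          have a1 : k⁻¹ * h⁻¹ * k ∈ M := by
            have := hMn.conj_mem h⁻¹ (M.inv_mem hh) k⁻¹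
            rwa [inv_inv] at this
          have a2 := M.mul_mem a1 hh
          have a3 : k⁻¹ * (h⁻¹ * k * h) = k⁻¹ * h⁻¹ * k * h := by group
          rw [a3]
          exact a2
        have hfix := hcon _ hzM hz S hS
        have e2 : tr (h⁻¹ * k * h) S = tr k S := by
          have a4 : h⁻¹ * k * h = k * (k⁻¹ * (h⁻¹ * k * h)) := by group
          rw [a4, ← tr_tr, hfix]
        rw [tr_conj k h S, e2]
        constructor
        · intro h3
          rw [h3]
        · intro h3
          exact tr_injective h h3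
      intro S hS
      exact hcon h hh key S hS
    -- every element is flipped by an element of `M`
    have hflip : ∀ S ∈ Q, ∃ h0 ∈ M, tr h0 S = Sᶜ := by
      intro S hS
      by_contra hcon
      push Not at hcon
      have hfixS : ∀ h ∈ M, h ∈ CC Q → tr h S = S := by
        intro h hh hC
        rcases hC S hS with e | e
        · exact e
        · exact absurd e (hcon h hh)
      obtain ⟨g, hg⟩ := ht S hS S1 hS1
      apply e1
      rw [← hg, tr_conj h1 g S, hfixS _ ?_ (conj_mem hQ h1C g)]
      have := hMn.conj_mem h1 h1M g⁻¹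
      rwa [inv_inv] at this
    refine Submodule.span_induction (p := fun F _ => ∑ h : M, rtr h.1 F ∈ QQ c) ?_ ?_ ?_ ?_ hF
    · rintro _ ⟨S, hS, rfl⟩
      obtain ⟨h0, h0M, e0⟩ := hflip S hS
      have h2 : ∑ h : M, rtr h.1 (eps S) = -∑ h : M, rtr h.1 (eps S) := by
        conv_lhs => rw [← Equiv.sum_comp (Equiv.mulRight (⟨h0, h0M⟩ : M)) (fun h : M => rtr h.1 (eps S))]
        rw [← Finset.sum_neg_distrib]
        refine Finset.sum_congr rfl fun h _ => ?_
        show rtr (h.1 * h0) (eps S) = -rtr h.1 (eps S)
        rw [← rtr_rtr, rtr_eps h0 S, e0, eps_compl', map_neg]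
      have h3 : ∑ h : M, rtr h.1 (eps S) = 0 := by
        have h4 : (2 : ℚ) • ∑ h : M, rtr h.1 (eps S) = 0 := by
          rw [two_smul]
          nth_rewrite 2 [h2]
          exact add_neg_cancel _
        exact (smul_eq_zero.1 h4).resolve_left (by norm_num)
      rw [h3]
      exact Submodule.zero_mem _
    · simp only [map_zero, Finset.sum_const_zero]
      exact Submodule.zero_mem _
    · intro x y _ _ hx hy
      simp only [map_add, Finset.sum_add_distrib]
      exact Submodule.add_mem _ hx hy
    · intro q x _ hx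
      simp only [map_smul, ← Finset.smul_sum]
      exact Submodule.smul_mem _ _ hx
  · -- relations
    intro a hsupp hodd hFF x hx
    exfalso
    have hxQ : x ∈ Q := by
      by_contra h
      exact hx (hsupp x h)
    -- the projection
    let P : (G → ℚ) → (G → ℚ) := fun F => ∑ h : CC Q, sgn h.1 x • rtr h.1 F
    have hPF : P (FF a) = (2 * a x * Fintype.card (CC Q)) • eps x := by
      have e1 : P (FF a) = ∑ T : Set G, (a T * ∑ h : CC Q, sgn h.1 x * sgn h.1 T) • eps T := by
        show ∑ h : CC Q, sgn h.1 x • rtr h.1 (FF a) = _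
        have e2 : ∀ h : CC Q, sgn h.1 x • rtr h.1 (FF a) =
            ∑ T : Set G, (a T * (sgn h.1 x * sgn h.1 T)) • eps T := by
          intro h
          rw [FF_eq, map_sum, Finset.smul_sum]
          refine Finset.sum_congr rfl fun T _ => ?_
          by_cases hT : T ∈ Q
          · rw [map_smul, rtr_sgn h.2 hT, smul_smul, smul_smul]
            congr 1
            ring
          · rw [hsupp T hT, zero_smul, map_zero, smul_zero, zero_mul, zero_smul]
        rw [Finset.sum_congr rfl (fun h _ => e2 h), Finset.sum_comm]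
        refine Finset.sum_congr rfl fun T _ => ?_
        rw [← Finset.sum_smul, ← Finset.mul_sum]
      have e3 : ∀ T : Set G, T ∉ ({x, xᶜ} : Finset (Set G)) →
          (a T * ∑ h : CC Q, sgn h.1 x * sgn h.1 T) • eps T = 0 := by
        intro T hT
        rw [Finset.mem_insert, Finset.mem_singleton, not_or] at hT
        by_cases hTQ : T ∈ Q
        · obtain ⟨h0, h0C, h0n⟩ := hsep hxQ hTQ hT.1 hT.2
          have hs : sgn h0 x * sgn h0 T = -1 := by
            rcases h0C x hxQ with f | f
            · rcases h0C T hTQ with f' | f'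
              · exact absurd ⟨fun _ => f', fun _ => f⟩ h0n
              · rw [sgn_fix f, sgn_flip f']; norm_num
            · rcases h0C T hTQ with f' | f'
              · rw [sgn_flip f, sgn_fix f']; norm_num
              · exfalso
                apply h0n
                constructor
                · intro h5
                  rw [f] at h5
                  exact absurd h5.symm (ne_compl x)
                · intro h5
                  rw [f'] at h5
                  exact absurd h5.symm (ne_compl T)
          have h2 : ∑ h : CC Q, sgn h.1 x * sgn h.1 T = -∑ h : CC Q, sgn h.1 x * sgn h.1 T := by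
            conv_lhs => rw [← Equiv.sum_comp (Equiv.mulRight (⟨h0, h0C⟩ : CC Q))
              (fun h : CC Q => sgn h.1 x * sgn h.1 T)]
            rw [← Finset.sum_neg_distrib]
            refine Finset.sum_congr rfl fun h _ => ?_
            show sgn (h.1 * h0) x * sgn (h.1 * h0) T = -(sgn h.1 x * sgn h.1 T)
            rw [sgn_mul h.2 h0C hxQ, sgn_mul h.2 h0C hTQ]
            linear_combination (sgn h.1 x * sgn h.1 T) * hs
          have h3 : ∑ h : CC Q, sgn h.1 x * sgn h.1 T = 0 := by linarith
          rw [h3, mul_zero, zero_smul]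
        · rw [hsupp T hTQ, zero_mul, zero_smul]
      rw [e1, ← Finset.sum_subset (Finset.subset_univ ({x, xᶜ} : Finset (Set G)))
        (fun T _ hT => e3 T hT), Finset.sum_pair (ne_compl x)]
      have e4 : ∑ h : CC Q, sgn h.1 x * sgn h.1 x = Fintype.card (CC Q) := by
        rw [Finset.sum_congr rfl (fun h _ => sgn_sq h.1 x), Finset.sum_const, Finset.card_univ,
          nsmul_eq_mul, mul_one]
      have e5 : ∑ h : CC Q, sgn h.1 x * sgn h.1 xᶜ = Fintype.card (CC Q) := by
        rw [← e4]
        refine Finset.sum_congr rfl fun h _ => ?_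
        rw [sgn_compl]
      rw [e4, e5, hodd, eps_compl', smul_neg, ← neg_smul, ← add_smul]
      congr 1
      ring
    -- commutators act trivially on `QQ c`
    have hQQ : ∀ (g k : G) (F : G → ℚ), F ∈ QQ c → rtr (k⁻¹ * g⁻¹ * k * g) F = F := by
      intro g k F hF
      refine Submodule.span_induction (p := fun F _ => rtr (k⁻¹ * g⁻¹ * k * g) F = F)
        ?_ ?_ ?_ ?_ hF
      · rintro _ ⟨N, hN, rfl⟩
        rw [rtr_eps]
        congr 1
        apply Imag.tr_mem (c := c)
        rw [hN.mul_mem_iff hc, hN.mul_mem_iff hc, hN.mul_mem_iff hc, N.inv_mem_iff, N.inv_mem_iff]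
        tauto
      · exact map_zero _
      · intro x y _ _ hx hy
        rw [map_add, hx, hy]
      · intro q x _ hx
        rw [map_smul, hx]
    -- so they fix `x`
    have hfix : ∀ (g k : G), k ∈ CC Q → tr (k⁻¹ * g⁻¹ * k * g) x = x := by
      intro g k hk
      have hzC : k⁻¹ * g⁻¹ * k * g ∈ CC Q := by
        have a1 : k⁻¹ * g⁻¹ * k * g = k⁻¹ * (g⁻¹ * k * g) := by group
        rw [a1]
        exact (CC Q).mul_mem ((CC Q).inv_mem hk) (conj_mem hQ hk g)
      have e1 : rtr (k⁻¹ * g⁻¹ * k * g) (P (FF a)) = P (FF a) := by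
        show rtr (k⁻¹ * g⁻¹ * k * g) (∑ h : CC Q, sgn h.1 x • rtr h.1 (FF a)) =
          ∑ h : CC Q, sgn h.1 x • rtr h.1 (FF a)
        rw [map_sum]
        refine Finset.sum_congr rfl fun h _ => ?_
        rw [map_smul, rtr_rtr]
        congr 1
        have a2 : k⁻¹ * g⁻¹ * k * g * h.1 = h.1 * ((h.1⁻¹ * k * h.1)⁻¹ * (h.1⁻¹ * g * h.1)⁻¹ *
            (h.1⁻¹ * k * h.1) * (h.1⁻¹ * g * h.1)) := by group
        rw [a2, ← rtr_rtr, hQQ _ _ _ hFF]
      rw [hPF, map_smul] at e1
      have hne : (2 * a x * (Fintype.card (CC Q) : ℚ)) ≠ 0 := by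
        have : (Fintype.card (CC Q) : ℚ) ≠ 0 := by exact_mod_cast Fintype.card_ne_zero
        exact mul_ne_zero (mul_ne_zero two_ne_zero hx) this
      have e2 : rtr (k⁻¹ * g⁻¹ * k * g) (eps x) = eps x := smul_right_injective _ hne e1
      rcases hzC x hxQ with e | e
      · exact e
      · exfalso
        rw [rtr_eps, e, eps_compl'] at e2
        have e3 := congrFun e2 1
        rw [Pi.neg_apply] at e3
        rcases eps_cases x 1 with e4 | e4 <;> rw [e4] at e3 <;> norm_num at e3
    -- all elements have the same signs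
    have hsame : ∀ (g k : G), k ∈ CC Q → (tr k x = x ↔ tr k (tr g x) = tr g x) := by
      intro g k hk
      have e2 : tr (g⁻¹ * k * g) x = tr k x := by
        have a4 : g⁻¹ * k * g = k * (k⁻¹ * g⁻¹ * k * g) := by group
        rw [a4, ← tr_tr, hfix g k hk]
      rw [tr_conj k g x, e2]
      constructor
      · intro h3
        rw [h3]
      · intro h3
        exact tr_injective g h3
    -- a third element
    obtain ⟨T, hT, hT1, hT2⟩ : ∃ T ∈ Q, T ≠ x ∧ T ≠ xᶜ := by
      by_contra hcon
      push Not at hcon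
      have hsub : Q ⊆ {x, xᶜ} := by
        intro T hT
        rw [Set.mem_insert_iff, Set.mem_singleton_iff]
        by_cases h : T = x
        · exact Or.inl h
        · exact Or.inr (hcon T hT h)
      have h1 := Set.ncard_le_ncard hsub (Set.toFinite _)
      have h2 := Set.ncard_insert_le x {xᶜ}
      rw [Set.ncard_singleton] at h2
      omega
    obtain ⟨h, hh, hn⟩ := hsep hxQ hT hT1 hT2
    obtain ⟨g, hg⟩ := ht x hxQ T hT
    have h3 := hsame g h hh
    rw [hg] at h3
    exact hn h3

end Pool.Agent.Q144.D3H
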