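import Pool.Agent.Q60.D3H.StmD
import Pool.Agent.Q182.D3H.Prt
import Pool.Agent.H977R3.CM.Aut

/-!
# Project D3H, job D4 SPT: the orbit of a CM type with separated square classes
-/

set_option linter.unusedSectionVars false
set_option linter.unusedVariables false

namespace Pool.Agent.Q144.D3H

open NumberField Module Pool.Agent.H204R3.CM
open Pool.Agent.W547.KB (CMPair cc)
open Pool.Agent.W547.LD (hs isHalf_hs tr_hs stable_hs compl_hs trans_hs)
open Pool.Agent.W547.LD.Comb (tr)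
open Pool.Agent.Q182.D3H.Prt (eq_or_conj tr_cc compl_ne)
open Pool.Agent.Q60.D3H

noncomputable section

/-- The automorphism of `L` which separates two embeddings. -/
theorem sep_aut (B : CMPair) (hB : SepT B) {L : Type} [Field L] [NumberField L] [IsCMField L]
    [IsGalois ℚ L] (j : L →+* ℂ) (φ ψ : B.E →+* L)
    (h : ∃ a ∈ maximalRealSubfield B.E, φ a ≠ ψ a) :
    ∃ g : L ≃ₐ[ℚ] L, (∀ ρ : B.E →+* L, g • ρ = ρ ∨ g • ρ = cc L • ρ) ∧ g • φ = φ ∧
      g • ψ = cc L • ψ := by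
  obtain ⟨a, ha, hne⟩ := h
  obtain ⟨σ, h1, h2, x, h3⟩ := hB (j.comp φ) (j.comp ψ) ⟨a, ha, fun h => hne (j.injective h)⟩
  obtain ⟨g, hg⟩ := Pool.Agent.H977R3.CM.exists_gal j σ
  have hall : ∀ ρ : B.E →+* L, g • ρ = ρ ∨ g • ρ = cc L • ρ := by
    intro ρ
    refine eq_or_conj B j ρ (g • ρ) ?_
    intro b hb
    apply j.injective
    change j (g (ρ b)) = j (ρ b)
    rw [← hg]
    exact h1 (j.comp ρ) b hb
  refine ⟨g, hall, ?_, ?_⟩
  · ext y
    apply j.injective
    change j (g (φ y)) = j (φ y)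
    rw [← hg]
    exact h2 y
  · refine (hall ψ).resolve_left fun h4 => h3 ?_
    change σ (j (ψ x)) = j (ψ x)
    rw [hg]
    exact congrArg j (RingHom.congr_fun h4 x)

/-- JOB D4 SPT. -/
theorem spt : S_spt := by
  intro B hB L _ _ _ _ j hj
  constructor
  · rintro _ ⟨φ, rfl⟩ _ ⟨ψ, rfl⟩ h1 h2
    have hne : ∃ a ∈ maximalRealSubfield B.E, φ a ≠ ψ a := by
      by_contra hcon
      push Not at hcon
      rcases eq_or_conj B j φ ψ (fun a ha => (hcon a ha).symm) with h | h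
      · exact h1 (by rw [h])
      · exact h2 (by rw [h, tr_cc])
    obtain ⟨g, hall, hφ, hψ⟩ := sep_aut B hB j φ ψ hne
    refine ⟨g, ?_, by rw [tr_hs, hφ], by rw [tr_hs, hψ, tr_cc]⟩
    rintro _ ⟨ρ, rfl⟩
    rw [tr_hs]
    rcases hall ρ with h | h
    · left; rw [h]
    · right; rw [h, tr_cc]
  · intro φ ψ h
    by_contra hne
    have hne2 : ∃ a ∈ maximalRealSubfield B.E, φ a ≠ ψ a := by
      by_contra hcon
      push Not at hcon
      rcases eq_or_conj B j φ ψ (fun a ha => (hcon a ha).symm) with h' | h'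
      · exact hne h'.symm
      · rw [h', tr_cc] at h
        exact compl_ne _ h
    obtain ⟨g, hall, hφ, hψ⟩ := sep_aut B hB j φ ψ hne2
    have e1 : tr g (hs B j φ) = hs B j φ := by rw [tr_hs, hφ]
    have e2 : tr g (hs B j ψ) = (hs B j ψ)ᶜ := by rw [tr_hs, hψ, tr_cc]
    rw [← h, e1] at e2
    exact compl_ne _ e2

end

end Pool.Agent.Q144.D3H
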